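import Pool.Agent.Helper14.SURF.StripGeo

/-!
# SURF-S2: the boundary of a column (project SURF, MP_409f7f_co)
-/

namespace Pool.Agent.Helper14.SURF

open Pool.Agent.Helper17.UF Pool.Agent.Helper84.LD Pool.Agent.Helper16.LD
  Pool.Agent.Helper53.GP Pool.Agent.Helper24.GEO Relation

variable {P : Finset Cube} {c : Cube → Bool}

theorem Column.edgE {S : Strip} {q r : ℕ} {Fc : ℕ → Face} (h : Column P c S q r Fc) {i : ℕ}
    (hi : i < S.n) : edg true eCan (Fc i) Hd.E = s(S.vx 0 i, S.vx 0 (i + 1)) := by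
  unfold edg
  simp only [Hd.left, Hd.opp]
  rw [cr_comm true eCan (Fc i) Hd.E Hd.N, cr_comm true eCan (Fc i) Hd.E Hd.S, h.se i hi, h.ne i hi,
    Sym2.eq_swap]

theorem Column.edgW {S : Strip} {q r : ℕ} {Fc : ℕ → Face} (h : Column P c S q r Fc) {i : ℕ}
    (hi : i < S.n) : edg true eCan (Fc i) Hd.W = s(S.vx 1 i, S.vx 1 (i + 1)) := by
  unfold edg
  simp only [Hd.left, Hd.opp]
  rw [cr_comm true eCan (Fc i) Hd.W Hd.N, cr_comm true eCan (Fc i) Hd.W Hd.S, h.sw i hi, h.nw i hi]

theorem Column.edgN {S : Strip} {q r : ℕ} {Fc : ℕ → Face} (h : Column P c S q r Fc) {i : ℕ}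
    (hi : i < S.n) : edg true eCan (Fc i) Hd.N = s(S.vx 0 (i + 1), S.vx 1 (i + 1)) := by
  unfold edg
  simp only [Hd.left, Hd.opp]
  rw [h.ne i hi, h.nw i hi, Sym2.eq_swap]

theorem Column.edgS {S : Strip} {q r : ℕ} {Fc : ℕ → Face} (h : Column P c S q r Fc) {i : ℕ}
    (hi : i < S.n) : edg true eCan (Fc i) Hd.S = s(S.vx 0 i, S.vx 1 i) := by
  unfold edg
  simp only [Hd.left, Hd.opp]
  rw [h.se i hi, h.sw i hi]

theorem pair_eq {S : Strip} {a b a' b' : ℤ} {i j i' j' : ℕ} (hi : i ≤ S.n) (hj : j ≤ S.n)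
    (hi' : i' ≤ S.n) (hj' : j' ≤ S.n) (h : s(S.vx a i, S.vx b j) = s(S.vx a' i', S.vx b' j')) :
    (a = a' ∧ i = i' ∧ b = b' ∧ j = j') ∨ (a = b' ∧ i = j' ∧ b = a' ∧ j = i') := by
  rw [Sym2.eq_iff] at h
  rcases h with ⟨h1, h2⟩ | ⟨h1, h2⟩
  · have k1 := vx_inj S hi hi' h1
    have k2 := vx_inj S hj hj' h2
    exact Or.inl ⟨k1.1, k1.2, k2.1, k2.2⟩
  · have k1 := vx_inj S hi hj' h1
    have k2 := vx_inj S hj hi' h2
    exact Or.inr ⟨k1.1, k1.2, k2.1, k2.2⟩

/-- Two sides of faces of a column have the same edge only if they are equal or glued to the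
north. -/
theorem Column.edg_inj {S : Strip} {q r : ℕ} {Fc : ℕ → Face} (h : Column P c S q r Fc) {i j : ℕ}
    (hi : i < S.n) (hj : j < S.n) {a b : Hd}
    (he : edg true eCan (Fc i) a = edg true eCan (Fc j) b) :
    (i = j ∧ a = b) ∨ (a = Hd.N ∧ b = Hd.S ∧ j = i + 1) ∨ (a = Hd.S ∧ b = Hd.N ∧ i = j + 1) := by
  have hi' : i ≤ S.n := by omega
  have hi1 : i + 1 ≤ S.n := by omega
  have hj' : j ≤ S.n := by omega
  have hj1 : j + 1 ≤ S.n := by omega
  cases a <;> cases b <;>
    simp only [h.edgE hi, h.edgW hi, h.edgN hi, h.edgS hi, h.edgE hj, h.edgW hj, h.edgN hj,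
      h.edgS hj] at he <;>
    rcases pair_eq (by assumption) (by assumption) (by assumption) (by assumption) he with
      h1 | h1 <;>
    first
    | (exfalso; omega)
    | (left; exact ⟨by omega, rfl⟩)
    | (right; left; exact ⟨rfl, rfl, by omega⟩)
    | (right; right; exact ⟨rfl, rfl, by omega⟩)

theorem Column.side_mem {S : Strip} {q r : ℕ} {Fc : ℕ → Face} (h : Column P c S q r Fc) {i : ℕ}
    (hi : i < S.n) (a : Hd) : (Fc i, dA true eCan (Fc i) a) ∈ sideF P :=
  mem_sideF.2 ⟨h.face i hi, perp_dirH true _ _ (perp_eCan _) a⟩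

theorem Column.nb_S {S : Strip} {q r : ℕ} {Fc : ℕ → Face} (h : Column P c S q r Fc) {i : ℕ}
    (hi : i + 1 < S.n) : nb P true eCan (Fc (i + 1)) Hd.S = Fc i := by
  have h1 := (Cmp.back (h.face i (by omega)) (perp_eCan _) (h.cmpN i hi)).2
  rw [h.north i hi] at h1
  exact h1

/-- A side of a face of the column that is not glued to the column. -/
theorem Column.out {S : Strip} {q r : ℕ} {Fc : ℕ → Face} (h : Column P c S q r Fc) {i : ℕ}
    (hi : i < S.n) {a : Hd} (hN : a = Hd.N → i + 1 = S.n) (hS : a = Hd.S → i = 0) :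
    nb P true eCan (Fc i) a ∉ colS S Fc := by
  intro hc
  obtain ⟨j, hj, he⟩ := mem_colS.1 hc
  have hs := h.side_mem hi a
  have h1 : (nu P (Fc i, dA true eCan (Fc i) a)).1 = Fc j := he.symm
  have h2 := mem_sideF.1 (nu_mem hs)
  have h3 := eg_nu hs
  obtain ⟨b, hb⟩ := exists_hd true _ _ _ (perp_eCan _) h2.2
  have h4 : nu P (Fc i, dA true eCan (Fc i) a) = (Fc j, dA true eCan (Fc j) b) := by
    refine Prod.ext h1 ?_
    simp only
    rw [hb, h1]
    rfl
  rw [h4] at h3
  simp only at h3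
  rw [eg_eq_edg (perp_eCan _) b, eg_eq_edg (perp_eCan _) a] at h3
  rcases h.edg_inj hj hi h3 with ⟨h5, h6⟩ | ⟨h5, h6, h7⟩ | ⟨h5, h6, h7⟩
  · subst h5 h6
    exact nu_ne hs h4
  · have := hS h6
    omega
  · have := hN h6
    omega

/-- The boundary of a column. -/
theorem Column.bd {S : Strip} {q r : ℕ} {Fc : ℕ → Face} (hman : Man P)
    (h : Column P c S q r Fc) : bdF P (colS S Fc) = S.bS := by
  have hn := two_le_n S
  have hin : ∀ i, i < S.n → ∀ a : Hd, (a = Hd.N → i + 1 = S.n) → (a = Hd.S → i = 0) →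
      edg true eCan (Fc i) a ∈ bdF P (colS S Fc) := by
    intro i hi a hN hS
    rw [← eg_eq_edg (perp_eCan _) a]
    have := mem_bdF hman (colS S Fc) (h.side_mem hi a)
    simp only at this
    rw [this]
    intro hc
    exact h.out hi hN hS (hc.1 (mem_colS.2 ⟨i, hi, rfl⟩))
  ext ε
  constructor
  · intro hε
    unfold bdF at hε
    rw [Finset.mem_image] at hε
    obtain ⟨⟨A, t⟩, hs, rfl⟩ := hε
    rw [Finset.mem_filter] at hs
    obtain ⟨h1, h2, h3⟩ := hs
    simp only at h2
    obtain ⟨i, hi, rfl⟩ := mem_colS.1 h2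
    have h4 := (mem_sideF.1 h1).2
    simp only at h4
    obtain ⟨a, rfl⟩ := exists_hd true _ _ _ (perp_eCan _) h4
    have h5 : (nu P (Fc i, dirH true (Fc i).2 (eCan (Fc i)) a)).1 = nb P true eCan (Fc i) a := rfl
    rw [h5] at h3
    have h6 : eg (Fc i) (dirH true (Fc i).2 (eCan (Fc i)) a) = edg true eCan (Fc i) a :=
      eg_eq_edg (perp_eCan _) a
    simp only
    rw [h6]
    unfold Strip.bS
    rw [Finset.mem_union, Finset.mem_union, Finset.mem_image, Finset.mem_image,
      Finset.mem_insert, Finset.mem_singleton]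
    cases a with
    | E => exact Or.inl (Or.inl ⟨i, Finset.mem_range.2 hi, (h.edgE hi).symm⟩)
    | W => exact Or.inl (Or.inr ⟨i, Finset.mem_range.2 hi, (h.edgW hi).symm⟩)
    | N =>
      by_cases h7 : i + 1 < S.n
      · exfalso
        apply h3
        rw [h.north i h7]
        exact mem_colS.2 ⟨i + 1, h7, rfl⟩
      · have h8 : i + 1 = S.n := by omega
        right; right
        rw [h.edgN hi, h8]
    | S =>
      rcases Nat.eq_zero_or_pos i with h7 | h7
      · subst h7
        right; left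
        rw [h.edgS hi]
      · exfalso
        apply h3
        obtain ⟨j, rfl⟩ : ∃ j, i = j + 1 := ⟨i - 1, by omega⟩
        rw [h.nb_S hi]
        exact mem_colS.2 ⟨j, by omega, rfl⟩
  · intro hε
    unfold Strip.bS at hε
    rw [Finset.mem_union, Finset.mem_union, Finset.mem_image, Finset.mem_image,
      Finset.mem_insert, Finset.mem_singleton] at hε
    rcases hε with (⟨i, hi, rfl⟩ | ⟨i, hi, rfl⟩) | rfl | rfl
    · rw [Finset.mem_range] at hi
      rw [← h.edgE hi]
      exact hin i hi Hd.E (fun h => absurd h (by decide)) (fun h => absurd h (by decide))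
    · rw [Finset.mem_range] at hi
      rw [← h.edgW hi]
      exact hin i hi Hd.W (fun h => absurd h (by decide)) (fun h => absurd h (by decide))
    · rw [← h.edgS (by omega : 0 < S.n)]
      exact hin 0 (by omega) Hd.S (fun h => absurd h (by decide)) (fun _ => rfl)
    · have h1 : S.n - 1 < S.n := by omega
      have h2 : S.n - 1 + 1 = S.n := by omega
      have h3 := h.edgN h1
      rw [h2] at h3
      rw [← h3]
      exact hin _ h1 Hd.N (fun _ => h2) (fun h => absurd h (by decide))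

/-- The boundary edges except the crossing edges are cut edges. -/
theorem Column.cut {S : Strip} {q r : ℕ} {Fc : ℕ → Face} (H : IsField P true eCan c)
    (h : Column P c S q r Fc) {ε : Sym2 Cube} (hε : ε ∈ S.bS)
    (h1 : ε ≠ s(S.vx 0 q, S.vx 0 (q + 1))) (h2 : ε ≠ s(S.vx 1 r, S.vx 1 (r + 1))) :
    ε ∈ cutF P true eCan c := by
  have hn := two_le_n S
  rw [H.mem_cutF]
  unfold Strip.bS at hε
  rw [Finset.mem_union, Finset.mem_union, Finset.mem_image, Finset.mem_image,
    Finset.mem_insert, Finset.mem_singleton] at hε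
  rcases hε with (⟨i, hi, rfl⟩ | ⟨i, hi, rfl⟩) | rfl | rfl
  · rw [Finset.mem_range] at hi
    refine ⟨Fc i, Hd.E, h.face i hi, ?_, (h.edgE hi).symm⟩
    intro hg
    obtain ⟨g1, g2⟩ := hg
    rw [h.se i hi, h.colE i (by omega)] at g1
    rw [h.ne i hi, h.colE (i + 1) (by omega)] at g2
    have g3 : ¬ q < i := of_decide_eq_false g1
    have g4 : q < i + 1 := of_decide_eq_true g2
    have : i = q := by omega
    subst this
    exact h1 rfl
  · rw [Finset.mem_range] at hi
    refine ⟨Fc i, Hd.W, h.face i hi, ?_, (h.edgW hi).symm⟩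
    intro hg
    obtain ⟨g1, g2⟩ := hg
    rw [h.sw i hi, h.colW i (by omega)] at g1
    rw [h.nw i hi, h.colW (i + 1) (by omega)] at g2
    have g3 : ¬ r < i := of_decide_eq_false g1
    have g4 : r < i + 1 := of_decide_eq_true g2
    have : i = r := by omega
    subst this
    exact h2 rfl
  · exact ⟨Fc 0, Hd.S, h.face 0 (by omega), h.bot, (h.edgS (by omega)).symm⟩
  · have h3 : S.n - 1 < S.n := by omega
    have h4 : S.n - 1 + 1 = S.n := by omega
    have h5 := h.edgN h3
    rw [h4] at h5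
    exact ⟨Fc (S.n - 1), Hd.N, h.face _ h3, h.top, h5.symm⟩

end Pool.Agent.Helper14.SURF
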