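import Pool.Agent.Helper14.SURF.StripGeo
import Pool.Agent.Helper53.GP.LocMain

/-!
# SURF-S5: the curve leaves a column in the right directions (project SURF, MP_409f7f_co)

PROOF (checked; no octant enumeration is needed on paper). Let `u = vx 1 i`, `1 ≤ i < n` (level
`k`; side 0 is the mirror image). The lattice edge `a` from `u` to `vx 0 i` (direction `-dk k`) is
the common side of `Fc (i-1)` and `Fc i`; by `EdgeOK` it has exactly two faces, in the directions
`dS i` and `dN i` (0 up, 1 `nx`, 2 down, 3 `pv`). Let `d` be another of the four directions with
`s(u, stp d u)` an edge of the surface. There is no face in the quarter plane (a, d), so the two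
cubes at `u` on the `-dk k` side of `d` are both in `P` or both not in `P`; so the edge
`s(u, stp d u)` has a face in the plane `xc k = c + 1`, with normal `dk k` if these two cubes are in
`P` and `-dk k` if they are not. This face is a wall, its side at level `k` is away from its level, so by
`CanCol.wall` the point `u` is white in the first case and black in the second. The sectors of the
solid cubes around `a` are those strictly between `dS` and `dN` in the cyclic order 0, 1, 2, 3 (the
normal of the faces `Fc (i-1)`, `Fc i` and `N = n x e`, `e = -dk k`). Suggestion: reduce to a statement on 8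
Booleans (membership of the 8 cubes at `u` in `P`) for each `k % 4`, then `decide` / `simp_all`.
-/

namespace Pool.Agent.Helper14.SURF

open Pool.Agent.Helper17.UF Pool.Agent.Helper84.LD Pool.Agent.Helper16.LD
  Pool.Agent.Helper53.GP Pool.Agent.Helper24.GEO Relation

variable {P : Finset Cube} {c : Cube → Bool}

theorem Column.loc {S : Strip} {q r : ℕ} {Fc : ℕ → Face} (hE : EdgeOK P) (H : CanCol P c)
    (h : Column P c S q r Fc) {C : Finset (Sym2 Cube)} (hC : C ⊆ edgeF P) : Loc S q r C :=
  column_loc hE H h hC

end Pool.Agent.Helper14.SURF
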