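import Pool.Agent.Helper14.SURF.Column
import Pool.Agent.Helper14.SURF.ColBd
import Pool.Agent.Helper14.SURF.Loc
import Pool.Agent.Helper26.SURF.Arcs
import Pool.Agent.Helper14.LD.Front

/-!
# SURF-S6: a chain of columns (project SURF, MP_409f7f_co)
-/

namespace Pool.Agent.Helper14.SURF

open Pool.Agent.Helper17.UF Pool.Agent.Helper84.LD Pool.Agent.Helper16.LD
  Pool.Agent.Helper53.GP Pool.Agent.Helper24.GEO Pool.Agent.Helper26.SURF Relation

variable {P : Finset Cube} {c : Cube → Bool}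

theorem xc_nx (p : Cube) : xc (p.2.2 + 1) (nx p) = xc (p.2.2 + 1) p + 1 := by
  unfold xc nx
  rcases mod4 (p.2.2 + 1) with h | h | h | h
  · rw [if_pos h, if_pos h, dk_0 h]; rfl
  · rw [if_neg (by omega), if_pos h, if_neg (by omega), if_pos h, dk_1 h]; rfl
  · rw [if_neg (by omega), if_neg (by omega), if_pos h, if_neg (by omega), if_neg (by omega),
      if_pos h, dk_2 h]
    have : (p + Dir.nx.vec).1 = p.1 + -1 := rfl
    rw [this]; ring
  · rw [if_neg (by omega), if_neg (by omega), if_neg (by omega), if_neg (by omega),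
      if_neg (by omega), if_neg (by omega), dk_3 h]
    have : (p + Dir.ny.vec).2.1 = p.2.1 + -1 := rfl
    rw [this]; ring

theorem nx_z (p : Cube) : (nx p).2.2 = p.2.2 := by
  unfold nx
  rcases mod4 (p.2.2 + 1) with h | h | h | h
  · rw [dk_0 h]; exact add_zero _
  · rw [dk_1 h]; exact add_zero _
  · rw [dk_2 h]; exact add_zero _
  · rw [dk_3 h]; exact add_zero _

theorem nx_ne (p : Cube) : nx p ≠ p := by
  intro h
  have h1 := xc_nx p
  rw [h] at h1
  omega

theorem nx_inj {p q : Cube} (h : nx p = nx q) : p = q := by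
  have hz : p.2.2 = q.2.2 := by rw [← nx_z p, ← nx_z q, h]
  unfold nx at h
  rw [hz] at h
  exact add_right_cancel h

/-- A nonempty even set of Legendrian edges contains a vertical edge. -/
theorem exists_vertical {Z : Finset (Sym2 Cube)} (hne : Z.Nonempty) (hev : EvenSet Z)
    (hleg : ∀ ε ∈ Z, ∃ p, ε = upE p ∨ ε = hzE p) : ∃ p, upE p ∈ Z := by
  classical
  by_contra hno
  push Not at hno
  have hh : ∀ ε ∈ Z, ∃ p, ε = hzE p := by
    intro ε hε
    obtain ⟨p, rfl | rfl⟩ := hleg ε hε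
    · exact absurd hε (hno p)
    · exact ⟨p, rfl⟩
  let V : Finset Cube := (Z.biUnion (fun ε => ε.toFinset)).filter (fun p => hzE p ∈ Z)
  have hV : ∀ p, p ∈ V ↔ hzE p ∈ Z := by
    intro p
    simp only [V, Finset.mem_filter, Finset.mem_biUnion, Sym2.mem_toFinset]
    constructor
    · exact fun h => h.2
    · exact fun h => ⟨⟨_, h, Sym2.mem_mk_left _ _⟩, h⟩
  have hVne : V.Nonempty := by
    obtain ⟨ε, hε⟩ := hne
    obtain ⟨p, rfl⟩ := hh ε hε
    exact ⟨p, (hV p).2 hε⟩
  obtain ⟨p, hp, hmax⟩ := V.exists_max_image (fun p => xc (p.2.2 + 1) p) hVne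
  have hpZ := (hV p).1 hp
  have h1 : Z.filter (fun ε => nx p ∈ ε) = {hzE p} := by
    ext ε
    rw [Finset.mem_filter, Finset.mem_singleton]
    constructor
    · rintro ⟨h2, h3⟩
      obtain ⟨q, rfl⟩ := hh ε h2
      unfold hzE at h3
      rw [Sym2.mem_iff] at h3
      rcases h3 with h3 | h3
      · exfalso
        have h4 := hmax q ((hV q).2 h2)
        rw [← h3, nx_z, xc_nx] at h4
        omega
      · rw [nx_inj h3]
    · rintro rfl
      exact ⟨hpZ, Sym2.mem_mk_right _ _⟩
  have h2 := hev (nx p)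
  rw [h1, Finset.card_singleton] at h2
  exact absurd h2 (by decide)

/-- The boundary edges of a union of columns are boundary edges of its columns. -/
theorem bd_col (hman : Man P) (H : CanCol P c) {K : Finset Face} (hK : Sat P true eCan K)
    {ε : Sym2 Cube} (hε : ε ∈ bdF P K) :
    ∃ (S : Strip) (q r : ℕ) (Fc : ℕ → Face), Column P c S q r Fc ∧ ε ∈ S.bS := by
  unfold bdF at hε
  rw [Finset.mem_image] at hε
  obtain ⟨s, hs, rfl⟩ := hε
  rw [Finset.mem_filter] at hs
  obtain ⟨h1, h2, h3⟩ := hs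
  obtain ⟨S, q, r, Fc, hC, hm⟩ := exists_column H (mem_sideF.1 h1).1
  refine ⟨S, q, r, Fc, hC, ?_⟩
  rw [← hC.bd hman, mem_bdF hman _ h1]
  intro hc
  have h4 := hc.1 hm
  rw [← hC.sameCol H hm] at h4
  exact h3 (hK.2 _ h2 _ (mem_colF.1 h4).2)

theorem bd_leg (hman : Man P) (H : CanCol P c) {K : Finset Face} (hK : Sat P true eCan K)
    {ε : Sym2 Cube} (hε : ε ∈ bdF P K) : ∃ p, ε = upE p ∨ ε = hzE p := by
  obtain ⟨S, q, r, Fc, -, h⟩ := bd_col hman H hK hε
  exact bS_leg S h

theorem cutF_sub (P : Finset Cube) (σ : Bool) (e : Face → Dir) (c : Cube → Bool) :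
    cutF P σ e c ⊆ edgeF P := by
  classical
  unfold cutF ngF edgeF
  exact Finset.image_subset_image (Finset.filter_subset _ _)

/-- A smallest disc bounded by cut edges, if the curve is not connected. -/
theorem exists_disc (hman : Man P) (hsurf : SurfConn P)
    (heuler : (vertF P).card + (faceF P).card = (edgeF P).card + 2) (H : CanCol P c)
    (hnc : ¬ ∀ A B, IsFace P A → IsFace P B →
      EqvGen (fun C D => Up P true eCan (UU P true eCan) C D ∨
        Cr P true eCan (XX P true eCan c) C D) A B) :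
    ∃ F, IsMinF P (cutF P true eCan c) F := by
  classical
  push Not at hnc
  obtain ⟨A0, B0, hA0, hB0, hAB⟩ := hnc
  let Rl : Face → Face → Prop := EqvGen (fun C D => Up P true eCan (UU P true eCan) C D ∨
        Cr P true eCan (XX P true eCan c) C D)
  let K : Finset Face := (faceF P).filter (fun B => Rl A0 B)
  have hKm : ∀ B, B ∈ K ↔ IsFace P B ∧ Rl A0 B := by
    intro B
    simp only [K, Finset.mem_filter, mem_faceF]
  have hsame : ∀ B D, SameCol P true eCan B D → Rl B D := fun B D h =>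
    eqvGen_mono' (fun _ _ h => Or.inl h) h
  have hKsat : Sat P true eCan K := by
    refine ⟨Finset.filter_subset _ _, ?_⟩
    intro B hB D hBD
    rw [hKm] at hB ⊢
    exact ⟨hBD.isFace.1 hB.1, EqvGen.trans _ _ _ hB.2 (hsame _ _ hBD)⟩
  refine exists_minF hman hsurf heuler (cutF_sub P true eCan c) hKsat.1
    ⟨A0, (hKm A0).2 ⟨hA0, EqvGen.refl _⟩⟩ ?_ ?_
  · intro h
    have : B0 ∈ K := by rw [h]; exact mem_faceF.2 hB0
    exact hAB ((hKm B0).1 this).2
  · intro ε hε
    rcases H.isField.bd_sat hman hKsat hε with h1 | ⟨A, h1, h2, h3⟩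
    · exact h1
    · exfalso
      apply h3
      have h4 : Rl A (nb P true eCan A Hd.E) := EqvGen.rel _ _ (Or.inr ⟨h1, rfl⟩)
      rw [hKm, hKm]
      exact ⟨fun h5 => ⟨isFace_nbr h1.1, EqvGen.trans _ _ _ h5.2 h4⟩,
        fun h5 => ⟨h1.1, EqvGen.trans _ _ _ h5.2 h4.symm⟩⟩

/-- **SURF.** If the curve of the rotating field is not connected, there is a chain of columns. -/
theorem exists_chain (hE : EdgeOK P) (hsurf : SurfConn P)
    (heuler : (vertF P).card + (faceF P).card = (edgeF P).card + 2) (H : CanCol P c)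
    (hnc : ¬ ∀ A B, IsFace P A → IsFace P B →
      EqvGen (fun C D => Up P true eCan (UU P true eCan) C D ∨
        Cr P true eCan (XX P true eCan c) C D) A B) :
    ∃ n, Nonempty (Chain n) := by
  classical
  have hman : Man P := hE
  have HF := H.isField
  obtain ⟨F, hF⟩ := exists_disc hman hsurf heuler H hnc
  have hFsat := HF.sat_minF hman hF
  obtain ⟨p0, hp0⟩ := exists_vertical hF.ckt.1 hF.ckt.2.1 (fun ε hε => bd_leg hman H hFsat hε)
  have hp0' := hp0
  unfold bdF at hp0'
  rw [Finset.mem_image] at hp0'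
  obtain ⟨s, hs', hsp⟩ := hp0'
  rw [Finset.mem_filter] at hs'
  obtain ⟨hs, hsF, hsF'⟩ := hs'
  have hsface : IsFace P s.1 := (mem_sideF.1 hs).1
  obtain ⟨hA, hsA⟩ := HF.xx_spec hsface
  set A := xx P true eCan c s.1 with hAdef
  have hAF : A ∈ F := hFsat.2 _ hsF _ hsA
  have hsA' : s.1 ∈ colF P true eCan A := mem_colF.2 ⟨hsface, hsA.symm⟩
  -- the columns
  have hcol : ∀ i : ℕ, ∃ (S : Strip) (q r : ℕ) (Fc : ℕ → Face), Column P c S q r Fc ∧
      (nxt P true eCan c)^[i] A ∈ colS S Fc := fun i => exists_column H (HF.iter_mem hA i).1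
  choose S q r Fc hC hmem using hcol
  have hcolF : ∀ i, colF P true eCan ((nxt P true eCan c)^[i] A) = colS (S i) (Fc i) :=
    fun i => (hC i).sameCol H (hmem i)
  have hq : ∀ i, (nxt P true eCan c)^[i] A = Fc i (q i) := by
    intro i
    obtain ⟨t, ht, h1⟩ := mem_colS.1 (hmem i)
    have h2 := HF.iter_mem hA i
    rw [← h1] at h2
    have h3 := ((hC i).xx_iff ht).1 h2
    rw [← h1, h3]
  have hcr0 : ∀ i, edg true eCan ((nxt P true eCan c)^[i] A) Hd.E =
      s((S i).vx 0 (q i), (S i).vx 0 (q i + 1)) := by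
    intro i
    rw [hq i]
    exact (hC i).edgE (hC i).qn
  have hnb : ∀ i, nb P true eCan (Fc i (q i)) Hd.E ∈ colS (S (i + 1)) (Fc (i + 1)) := by
    intro i
    rw [← hcolF (i + 1), mem_colF, ← hq i]
    exact ⟨isFace_nbr (HF.iter_mem hA i).1, nb_XX HF hA i⟩
  have hcr1 : ∀ i, edg true eCan ((nxt P true eCan c)^[i] A) Hd.E =
      s((S (i + 1)).vx 1 (r (i + 1)), (S (i + 1)).vx 1 (r (i + 1) + 1)) := by
    intro i
    obtain ⟨h1, h2⟩ := (hC i).next H (hC (i + 1)) (hnb i)
    rw [hcr0 i, h1, h2]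
  have hper := HF.per_pos hA
  have hper2 : 2 ≤ per P true eCan c A := by
    by_contra h
    have h1 : per P true eCan c A = 1 := by omega
    have h2 := iter_per (P := P) (σ := true) (e := eCan) (c := c) A
    rw [h1] at h2
    have h3 := nb_XX HF hA 0
    rw [h2] at h3
    have h4 : nb P true eCan (Fc 0 (q 0)) Hd.E ∈ colS (S 0) (Fc 0) := by
      rw [← hcolF 0, mem_colF, ← hq 0]
      exact ⟨isFace_nbr (HF.iter_mem hA 0).1, h3⟩
    exact (hC 0).next_ne H h4
  obtain ⟨n, hn⟩ : ∃ n, n + 2 = per P true eCan c A := ⟨per P true eCan c A - 2, by omega⟩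
  have hiter : (nxt P true eCan c)^[n + 2] A = A := by rw [hn]; exact iter_per A
  -- the facts about the curves
  have hckt : ∀ j, j ≤ n → Ckt (bdF P (colsT P true eCan c A j)) ∧
      Cl P F (bdF P (colsT P true eCan c A j)) ∧
      eg s.1 s.2 ∉ bdF P (colsT P true eCan c A j) ∧ eg s.1 s.2 ∈ bdF P F := fun j hj =>
    HF.ckt_curT hman hsurf hF hA hs hsA' hsF' hAF (by omega)
  have hbS : ∀ i, bdF P (colF P true eCan ((nxt P true eCan c)^[i] A)) = (S i).bS := by
    intro i
    rw [hcolF i]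
    exact (hC i).bd hman
  have hMc : ∀ ε ∈ cutF P true eCan c, (Sym2.map c ε).IsDiag := fun ε hε => HF.diag_cutF hε
  -- the join hypothesis
  have hjoin : ∀ j, j ≤ n → ∀ i, ∀ v v' T, On (bdF P (colsT P true eCan c A j)) v →
      On (bdF P (colsT P true eCan c A j)) v' → T ⊆ (S i).bS →
      s((S i).vx 0 (q i), (S i).vx 0 (q i + 1)) ∉ T →
      s((S i).vx 1 (r i), (S i).vx 1 (r i + 1)) ∉ T → upE p0 ∉ T → Join T v v' →
      T ⊆ bdF P (colsT P true eCan c A j) := by
    intro j hj i v v' T hv hv' hT h0 h1 hc0 hJ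
    obtain ⟨k1, k2, k3, k4⟩ := hckt j hj
    refine hF.join_sub c hMc (bdF_subset _) k1 k2 (fun ε hε => HF.mem_curT hman hA (by omega) hε)
      (not_diag_XX hA) (not_diag_XX (HF.iter_mem hA (j + 1))) k4 k3 hv hv' ?_ ?_ ?_ ?_ hJ
    · intro ε hε
      exact (hC i).cut HF (hT hε) (fun h => h0 (h ▸ hε)) (fun h => h1 (h ▸ hε))
    · intro ε hε
      have := hT hε
      rw [← hbS i] at this
      exact bdF_subset _ this
    · have h2 : Cl P F (S i).bS := by
        rw [← hbS i]
        exact cl_bdF hman (HF.colF_sub hman hF hA hAF i)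
      exact h2.mono hT
    · rw [hsp]
      exact hc0
  have hvalid : ∀ j, j ≤ n → Valid (bdF P (colsT P true eCan c A j)) := fun j hj =>
    ⟨fun ε hε => bd_leg hman H (sat_colsT A j) hε, fun p => (hckt j hj).1.deg (bdF_subset _) p⟩
  have hpush : ∀ j, j < n → ∃ lo hi, ArcP (S (j + 2)) (q (j + 2)) (r (j + 2))
      (bdF P (colsT P true eCan c A j)) lo hi := by
    intro j hj
    have hc0 : upE p0 ∉ (S (j + 2)).bS := by
      rw [← hbS (j + 2), ← hsp,
        HF.c0_col hman hF hA hs hsA' hsF' hAF (by omega : j + 2 < per P true eCan c A)]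
      omega
    obtain ⟨lo, hi, h1, h2, h3⟩ := arc_KI (C := bdF P (colsT P true eCan c A j))
      (hC (j + 2)).qn (hC (j + 2)).rn
      (by
        rw [← hcr1 (j + 1), HF.cross_mem hman hA (by omega) (by omega)]
        exact Or.inr rfl)
      (by
        rw [← hcr0 (j + 2), HF.cross_mem hman hA (by omega) (by omega)]
        omega)
      (fun v v' T hv hv' hT h0 h1 hJ => hjoin j (by omega) (j + 2) v v' T hv hv' hT h0 h1
        (fun h => hc0 (hT h)) hJ)
    exact ⟨lo, hi, h1, (hC (j + 2)).rn, h2, h3, (hC (j + 2)).loc hE H (bdF_subset _)⟩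
  have hzero : ∃ lo hi, ArcZ (S (n + 2)) (q (n + 2)) (r (n + 2))
      (bdF P (colsT P true eCan c A n)) lo hi := by
    obtain ⟨k1, k2, k3, k4⟩ := hckt n le_rfl
    have hc0 : upE p0 ∈ (S (n + 2)).bS := by
      rw [← hbS (n + 2), hiter, ← hsp]
      exact (HF.c0_col hman hF hA hs hsA' hsF' hAF (i := 0) hper).2 rfl
    obtain ⟨lo, hi, h1, h2, h3⟩ := arc_KII (C := bdF P (colsT P true eCan c A n))
      (hC (n + 2)).qn (hC (n + 2)).rn
      (by
        rw [← hcr1 (n + 1), HF.cross_mem hman hA (by omega) (by omega)]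
        exact Or.inr rfl)
      (by
        rw [← hcr0 (n + 2), hiter]
        exact (HF.cross_mem hman hA (i := 0) (j := n) (by omega) hper).2 (Or.inl rfl))
      hc0 (by rw [← hsp]; exact k3)
      (fun v v' T hv hv' hT h0 h1 hc hJ => hjoin n le_rfl (n + 2) v v' T hv hv' hT h0 h1 hc hJ)
    exact ⟨lo, hi, h1, (hC (n + 2)).rn, h2, h3, (hC (n + 2)).loc hE H (bdF_subset _)⟩
  have hall : ∀ i : ℕ, ∃ lo hi : ℕ, (∀ j, i = j + 1 → j < n →
      ArcP (S (j + 2)) (q (j + 2)) (r (j + 2)) (bdF P (colsT P true eCan c A j)) lo hi) ∧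
      (i = n + 1 → ArcZ (S (n + 2)) (q (n + 2)) (r (n + 2))
        (bdF P (colsT P true eCan c A n)) lo hi) := by
    intro i
    by_cases h1 : i = n + 1
    · obtain ⟨lo, hi, h2⟩ := hzero
      exact ⟨lo, hi, fun j hj hj' => by omega, fun _ => h2⟩
    · by_cases h2 : ∃ j, i = j + 1 ∧ j < n
      · obtain ⟨j, hj, hj'⟩ := h2
        obtain ⟨lo, hi, h3⟩ := hpush j hj'
        refine ⟨lo, hi, fun j' h4 _ => ?_, fun h => absurd h h1⟩
        have : j' = j := by omega
        rw [this]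
        exact h3
      · refine ⟨0, 0, fun j hj hj' => absurd ⟨j, hj, hj'⟩ h2, fun h => absurd h h1⟩
  choose lo hi hlh using hall
  refine ⟨n, ⟨{
    S := fun j => S (j + 1)
    q := fun j => q (j + 1)
    r := fun j => r (j + 1)
    lo := lo
    hi := hi
    C := fun j => bdF P (colsT P true eCan c A j)
    valid := hvalid
    base := ?_
    push := fun j hj => (hlh (j + 1)).1 j rfl hj
    next := ?_
    zero := (hlh (n + 1)).2 rfl }⟩⟩
  · change bdF P (colsT P true eCan c A 0) = (S 1).bS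
    rw [colsT_zero]
    exact hbS 1
  · intro j hj
    change bdF P (colsT P true eCan c A (j + 1)) =
      symmDiff (bdF P (colsT P true eCan c A j)) (S (j + 2)).bS
    rw [HF.curT_succ hman hA (by omega), hbS (j + 2)]

end Pool.Agent.Helper14.SURF
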