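import Pool.Agent.Helper24.GEO.Defs
import Pool.Agent.Helper14.LD.Comp
import Pool.Agent.Helper14.LD.Arc

/-!
# The columns of the rotating field as strips (project SURF, MP_409f7f_co)
-/

namespace Pool.Agent.Helper14.SURF

open Pool.Agent.Helper17.UF Pool.Agent.Helper84.LD Pool.Agent.Helper16.LD
  Pool.Agent.Helper53.GP Pool.Agent.Helper24.GEO Relation

/-- The faces `Fc 0, .., Fc (n - 1)` (from S to N) form a column of the rotating field with the
shape `S`; `q` and `r` are the numbers of the crossing edges on the E side (side 0) and on the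
W side (side 1). -/
structure Column (P : Finset Cube) (c : Cube → Bool) (S : Strip) (q r : ℕ) (Fc : ℕ → Face) :
    Prop where
  face : ∀ i, i < S.n → IsFace P (Fc i)
  north : ∀ i, i + 1 < S.n → nb P true eCan (Fc i) Hd.N = Fc (i + 1)
  cmpN : ∀ i, i + 1 < S.n → Cmp P true eCan (Fc i) Hd.N
  top : ¬ Cmp P true eCan (Fc (S.n - 1)) Hd.N
  bot : ¬ Cmp P true eCan (Fc 0) Hd.S
  se : ∀ i, i < S.n → cr true eCan (Fc i) Hd.S Hd.E = S.vx 0 i
  ne : ∀ i, i < S.n → cr true eCan (Fc i) Hd.N Hd.E = S.vx 0 (i + 1)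
  sw : ∀ i, i < S.n → cr true eCan (Fc i) Hd.S Hd.W = S.vx 1 i
  nw : ∀ i, i < S.n → cr true eCan (Fc i) Hd.N Hd.W = S.vx 1 (i + 1)
  qn : q < S.n
  rn : r < S.n
  colE : ∀ i, i ≤ S.n → c (S.vx 0 i) = decide (q < i)
  colW : ∀ i, i ≤ S.n → c (S.vx 1 i) = decide (r < i)

/-- The faces of a column. -/
def colS (S : Strip) (Fc : ℕ → Face) : Finset Face := (Finset.range S.n).image Fc

theorem mem_colS {S : Strip} {Fc : ℕ → Face} {B : Face} :
    B ∈ colS S Fc ↔ ∃ i, i < S.n ∧ Fc i = B := by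
  unfold colS
  simp [Finset.mem_image, Finset.mem_range]

end Pool.Agent.Helper14.SURF
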