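import Pool.Agent.Helper14.SURF.StripGeo
import Pool.Agent.Helper84.SURF.Exist

/-!
# SURF-S1: the columns of the rotating field (project SURF, MP_409f7f_co)

`xx`, `XX`, `SameCol`, `colF`, `nxt` are in `Helper14/LD/Cols.lean` (IsField from `CanCol.isField`).
-/

namespace Pool.Agent.Helper14.SURF

open Pool.Agent.Helper17.UF Pool.Agent.Helper84.LD Pool.Agent.Helper16.LD
  Pool.Agent.Helper53.GP Pool.Agent.Helper24.GEO Relation Pool.Agent.Helper84.SURF

variable {P : Finset Cube} {c : Cube → Bool}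

/-- Going up is iterating. -/
theorem up_it {F0 B : Face}
    (h : ReflTransGen (Up P true eCan (UU P true eCan)) F0 B) :
    ∃ j, it P F0 j = B ∧ ∀ i, i < j → Cmp P true eCan (it P F0 i) Hd.N := by
  induction h with
  | refl => exact ⟨0, rfl, fun i hi => absurd hi (Nat.not_lt_zero i)⟩
  | tail _ h2 ih =>
    obtain ⟨j, hj, hc⟩ := ih
    obtain ⟨⟨-, h3⟩, h4⟩ := h2
    refine ⟨j + 1, ?_, ?_⟩
    · rw [it_succ, hj]; exact h4
    · intro i hi
      rcases Nat.lt_succ_iff_lt_or_eq.1 hi with h | rfl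
      · exact hc i h
      · rw [hj]; exact h3

/-- Every face lies in a column. -/
theorem exists_column (H : CanCol P c) {A : Face} (hA : IsFace P A) :
    ∃ (S : Strip) (q r : ℕ) (Fc : ℕ → Face), Column P c S q r Fc ∧ A ∈ colS S Fc := by
  have HF := H.isField
  obtain ⟨M, -, hM⟩ := HF.exists_bot
  obtain ⟨B, hB, hBc, hAB⟩ := hM _ A hA rfl
  obtain ⟨S, q, r, hcol⟩ := exists_column_bot H hB hBc
  refine ⟨S, q, r, it P B, hcol, ?_⟩
  rw [mem_colS]
  have hup : ReflTransGen (Up P true eCan (UU P true eCan)) B A := by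
    rcases eqvGen_comparable up_func HF.up_inj hAB with h | h
    · rcases ReflTransGen.cases_tail h with h1 | ⟨D, -, ⟨hD, hDc⟩, h2⟩
      · rw [h1]
      · exfalso
        have := (Cmp.back hD (perp_eCan _) hDc).1
        rw [h2] at this
        exact hBc this
    · exact h
  obtain ⟨j, hj, hc⟩ := up_it hup
  refine ⟨j, ?_, hj⟩
  by_contra hn
  exact hcol.top (hc _ (by have := hcol.qn; omega))

/-- The class of a face under the glueing to the north is its column. -/
theorem Column.sameCol {S : Strip} {q r : ℕ} {Fc : ℕ → Face} (H : CanCol P c)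
    (h : Column P c S q r Fc) {A : Face} (hA : A ∈ colS S Fc) :
    colF P true eCan A = colS S Fc := by
  have HF := H.isField
  have hup : ∀ X Y, Up P true eCan (UU P true eCan) X Y → (X ∈ colS S Fc ↔ Y ∈ colS S Fc) := by
    rintro X Y ⟨⟨hX, hc⟩, hY⟩
    rw [mem_colS, mem_colS]
    constructor
    · rintro ⟨i, hi, rfl⟩
      rcases Nat.lt_or_ge (i + 1) S.n with h1 | h1
      · exact ⟨i + 1, h1, (h.north i h1).symm.trans hY⟩
      · exfalso
        have : i = S.n - 1 := by omega
        rw [this] at hc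
        exact h.top hc
    · rintro ⟨i, hi, rfl⟩
      rcases i with - | i
      · exfalso
        have := (Cmp.back hX (perp_eCan _) hc).1
        rw [hY] at this
        exact h.bot this
      · refine ⟨i, by omega, ?_⟩
        exact HF.up_inj _ _ _ ⟨⟨h.face i (by omega), h.cmpN i hi⟩, h.north i hi⟩ ⟨⟨hX, hc⟩, hY⟩
  have hsat : ∀ X Y, SameCol P true eCan X Y → (X ∈ colS S Fc ↔ Y ∈ colS S Fc) := by
    intro X Y hXY
    induction hXY with
    | rel x y h => exact hup x y h
    | refl => rfl
    | symm _ _ _ ih => exact ih.symm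
    | trans _ _ _ _ _ ih1 ih2 => exact ih1.trans ih2
  have hchain : ∀ i, i < S.n → SameCol P true eCan (Fc 0) (Fc i) := by
    intro i
    induction i with
    | zero => intro _; exact EqvGen.refl _
    | succ i ih =>
      intro hi
      exact (ih (by omega)).trans _ _ _
        (EqvGen.rel _ _ ⟨⟨h.face i (by omega), h.cmpN i hi⟩, h.north i hi⟩)
  ext B
  rw [mem_colF]
  constructor
  · rintro ⟨-, h2⟩
    exact (hsat _ _ h2).1 hA
  · intro hB
    rw [mem_colS] at hA hB
    obtain ⟨i, hi, rfl⟩ := hA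
    obtain ⟨j, hj, rfl⟩ := hB
    exact ⟨h.face j hj, ((hchain i hi).symm).trans _ _ _ (hchain j hj)⟩

/-- The face which the curve leaves through the east side. -/
theorem Column.xx_iff {S : Strip} {q r : ℕ} {Fc : ℕ → Face}
    (h : Column P c S q r Fc) {i : ℕ} (hi : i < S.n) : Fc i ∈ XX P true eCan c ↔ i = q := by
  have h1 := h.colE i (by omega)
  have h2 := h.colE (i + 1) (by omega)
  constructor
  · rintro ⟨-, h3, h4⟩
    rw [h.se i hi, h1, decide_eq_false_iff_not] at h3
    rw [h.ne i hi, h2, decide_eq_true_eq] at h4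
    omega
  · rintro rfl
    refine ⟨h.face i hi, ?_, ?_⟩
    · rw [h.se i hi, h1, decide_eq_false_iff_not]; omega
    · rw [h.ne i hi, h2, decide_eq_true_eq]; omega

/-- The next column. -/
theorem Column.next {S S' : Strip} {q r q' r' : ℕ} {Fc Fc' : ℕ → Face} (H : CanCol P c)
    (h : Column P c S q r Fc) (h' : Column P c S' q' r' Fc')
    (hn : nb P true eCan (Fc q) Hd.E ∈ colS S' Fc') :
    S.vx 0 q = S'.vx 1 r' ∧ S.vx 0 (q + 1) = S'.vx 1 (r' + 1) := by
  have HF := H.isField
  have hX := (h.xx_iff h.qn).2 rfl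
  have hcE := HF.cmpE hX.1 hX.2.1 hX.2.2
  obtain ⟨e1, e2⟩ := HF.east hX.1 hcE
  rw [mem_colS] at hn
  obtain ⟨j, hj, hj'⟩ := hn
  rw [← hj', h.se q h.qn, h'.sw j hj] at e1
  rw [← hj', h.ne q h.qn, h'.nw j hj] at e2
  have c1 := h.colE q (le_of_lt h.qn)
  have c2 := h.colE (q + 1) h.qn
  have c3 := h'.colW j (le_of_lt hj)
  have c4 := h'.colW (j + 1) hj
  rw [e1, c1] at c3
  rw [e2, c2] at c4
  have hjr : j = r' := by
    have h3 : ¬ r' < j := by
      intro hlt
      rw [decide_eq_true hlt] at c3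
      simp at c3
    have h4 : r' < j + 1 := by
      by_contra hlt
      rw [decide_eq_false hlt] at c4
      simp at c4
    omega
  rw [← hjr]
  exact ⟨e1.symm, e2.symm⟩

/-- The next column is a different one. -/
theorem Column.next_ne {S : Strip} {q r : ℕ} {Fc : ℕ → Face} (H : CanCol P c)
    (h : Column P c S q r Fc) : nb P true eCan (Fc q) Hd.E ∉ colS S Fc := by
  intro hn
  have h1 := (h.next H h hn).1
  have h2 := vx_inj S (le_of_lt h.qn) (le_of_lt h.rn) h1
  exact absurd h2.1 (by norm_num)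

end Pool.Agent.Helper14.SURF
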