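import Pool.Agent.Helper14.SURF.Defs
import Pool.Agent.Helper26.SURF.Arcs

/-!
# SURF-S0: lattice geometry of a strip (project SURF, MP_409f7f_co)
-/

namespace Pool.Agent.Helper14.SURF

open Pool.Agent.Helper17.UF Pool.Agent.Helper53.GP Pool.Agent.Helper24.GEO

theorem two_le_n (S : Strip) : 2 ≤ S.n := by unfold Strip.n; omega

theorem ptk_inj {k x y z x' y' z' : ℤ} (h : ptk k x y z = ptk k x' y' z') :
    x = x' ∧ y = y' ∧ z = z' := Pool.Agent.Helper26.SURF.ptk_inj h

theorem vx_inj (S : Strip) {s s' : ℤ} {i i' : ℕ} (hi : i ≤ S.n) (hi' : i' ≤ S.n)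
    (h : S.vx s i = S.vx s' i') : s = s' ∧ i = i' := Pool.Agent.Helper26.SURF.vx_inj S hi hi' h

theorem ptk_z (k x y z : ℤ) : (ptk k x y z).2.2 = z := by
  unfold ptk
  split_ifs <;> rfl

theorem up_ptk (k x y z : ℤ) : up (ptk k x y z) = ptk k x y (z + 1) := by
  unfold up ptk
  split_ifs <;> rfl

theorem nx_eq (p : Cube) {j : ℤ} (h : p.2.2 + 1 = j) : nx p = p + (dk j).vec := by
  unfold nx; rw [h]

theorem nx_ptk (k x y : ℤ) : nx (ptk k x y k) = ptk k x (y + 1) k := by
  rw [nx_eq _ (by rw [ptk_z] : (ptk k x y k).2.2 + 1 = k + 1)]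
  unfold ptk
  rcases mod4 k with h | h | h | h
  · rw [if_pos h, if_pos h, dk_1 (by omega)]
    change (x + 0, y + 1, k + 0) = _
    simp
  · rw [if_neg (by omega), if_pos h, if_neg (by omega), if_pos h, dk_2 (by omega)]
    change (-y + -1, x + 0, k + 0) = _
    simp only [Prod.mk.injEq, add_zero, and_true]
    ring
  · rw [if_neg (by omega), if_neg (by omega), if_pos h, if_neg (by omega), if_neg (by omega),
      if_pos h, dk_3 (by omega)]
    change (-x + 0, -y + -1, k + 0) = _
    simp only [Prod.mk.injEq, add_zero, true_and, and_true]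
    ring
  · rw [if_neg (by omega), if_neg (by omega), if_neg (by omega), if_neg (by omega),
      if_neg (by omega), if_neg (by omega), dk_0 (by omega)]
    change (y + 1, -x + 0, k + 0) = _
    simp

theorem nx_ptk_up (k x y : ℤ) : nx (ptk k x y (k + 1)) = ptk k (x - 1) y (k + 1) := by
  rw [nx_eq _ (by rw [ptk_z]; ring : (ptk k x y (k + 1)).2.2 + 1 = k + 2)]
  unfold ptk
  rcases mod4 k with h | h | h | h
  · rw [if_pos h, if_pos h, dk_2 (by omega)]
    change (x + -1, y + 0, k + 1 + 0) = _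
    simp [sub_eq_add_neg]
  · rw [if_neg (by omega), if_pos h, if_neg (by omega), if_pos h, dk_3 (by omega)]
    change (-y + 0, x + -1, k + 1 + 0) = _
    simp [sub_eq_add_neg]
  · rw [if_neg (by omega), if_neg (by omega), if_pos h, if_neg (by omega), if_neg (by omega),
      if_pos h, dk_0 (by omega)]
    change (-x + 1, -y + 0, k + 1 + 0) = _
    simp only [Prod.mk.injEq, add_zero, and_true]
    ring
  · rw [if_neg (by omega), if_neg (by omega), if_neg (by omega), if_neg (by omega),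
      if_neg (by omega), if_neg (by omega), dk_1 (by omega)]
    change (y + 0, -x + 1, k + 1 + 0) = _
    simp only [Prod.mk.injEq, add_zero, true_and, and_true]
    ring

theorem nx_ptk_dn (k x y : ℤ) : nx (ptk k x y (k - 1)) = ptk k (x + 1) y (k - 1) := by
  rw [nx_eq _ (by rw [ptk_z]; ring : (ptk k x y (k - 1)).2.2 + 1 = k)]
  unfold ptk
  rcases mod4 k with h | h | h | h
  · rw [if_pos h, if_pos h, dk_0 h]
    change (x + 1, y + 0, k - 1 + 0) = _
    simp
  · rw [if_neg (by omega), if_pos h, if_neg (by omega), if_pos h, dk_1 h]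
    change (-y + 0, x + 1, k - 1 + 0) = _
    simp
  · rw [if_neg (by omega), if_neg (by omega), if_pos h, if_neg (by omega), if_neg (by omega),
      if_pos h, dk_2 h]
    change (-x + -1, -y + 0, k - 1 + 0) = _
    simp only [Prod.mk.injEq, add_zero, and_true]
    ring
  · rw [if_neg (by omega), if_neg (by omega), if_neg (by omega), if_neg (by omega),
      if_neg (by omega), if_neg (by omega), dk_3 h]
    change (y + 0, -x + -1, k - 1 + 0) = _
    simp only [Prod.mk.injEq, add_zero, true_and, and_true]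
    ring

/-- The vertices of the sides at level `k`. -/
theorem vx_mid (S : Strip) (s : ℤ) {i : ℕ} (h1 : 1 ≤ i) (h2 : i < S.n) :
    S.vx s i = ptk S.k (S.c + s) (S.y0 + S.sg * ((i : ℤ) - 1)) S.k := by
  unfold Strip.vx
  rw [if_neg (by omega), if_pos h2]

theorem leg_aux (k x y : ℤ) (S : Strip) (hk : S.k = k) (g : Bool) :
    ∃ p, s(ptk k x y (S.far g), ptk k x y k) = upE p := by
  unfold Strip.far
  rw [hk]
  cases g
  · refine ⟨ptk k x y (k - 1), ?_⟩
    unfold upE
    rw [up_ptk]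
    simp
  · refine ⟨ptk k x y k, ?_⟩
    unfold upE
    rw [up_ptk, Sym2.eq_swap]
    simp

theorem side_leg (S : Strip) (s : ℤ) {i : ℕ} (hi : i < S.n) :
    ∃ p, s(S.vx s i, S.vx s (i + 1)) = upE p ∨ s(S.vx s i, S.vx s (i + 1)) = hzE p := by
  have hn := two_le_n S
  rcases Nat.eq_zero_or_pos i with rfl | h1
  · have e0 : S.vx s 0 = ptk S.k (S.c + s) S.y0 (S.far S.g0) := by
      unfold Strip.vx; rw [if_pos rfl]
    have e1 : S.vx s (0 + 1) = ptk S.k (S.c + s) S.y0 S.k := by
      rw [vx_mid S s (by omega) (by omega)]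
      congr 1
      push_cast
      ring
    rw [e0, e1]
    obtain ⟨p, hp⟩ := leg_aux S.k (S.c + s) S.y0 S rfl S.g0
    exact ⟨p, Or.inl hp⟩
  · by_cases h2 : i + 1 < S.n
    · rw [vx_mid S s h1 hi, vx_mid S s (by omega) h2]
      have hsg : S.sg = 1 ∨ S.sg = -1 := by
        unfold Strip.sg
        split_ifs
        · exact Or.inl rfl
        · exact Or.inr rfl
      rcases hsg with h | h
      · refine ⟨ptk S.k (S.c + s) (S.y0 + S.sg * ((i : ℤ) - 1)) S.k, Or.inr ?_⟩
        have e : S.y0 + S.sg * (((i + 1 : ℕ) : ℤ) - 1) =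
            S.y0 + S.sg * ((i : ℤ) - 1) + 1 := by
          rw [h]; push_cast; ring
        unfold hzE
        rw [nx_ptk, e]
      · refine ⟨ptk S.k (S.c + s) (S.y0 + S.sg * (((i + 1 : ℕ) : ℤ) - 1)) S.k, Or.inr ?_⟩
        have e : S.y0 + S.sg * ((i : ℤ) - 1) =
            S.y0 + S.sg * (((i + 1 : ℕ) : ℤ) - 1) + 1 := by
          rw [h]; push_cast; ring
        unfold hzE
        rw [nx_ptk, ← e, Sym2.eq_swap]
    · have h3 : i + 1 = S.n := by omega
      have e1 : S.vx s (i + 1) = ptk S.k (S.c + s) S.y1 (S.far S.g1) := by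
        unfold Strip.vx
        rw [if_neg (by omega), if_neg (by omega)]
      have e0 : S.vx s i = ptk S.k (S.c + s) S.y1 S.k := by
        rw [vx_mid S s h1 hi]
        congr 1
        have h4 : S.n = (S.y1 - S.y0).natAbs + 2 := rfl
        unfold Strip.sg
        split_ifs with h5
        · have : ((S.y1 - S.y0).natAbs : ℤ) = S.y1 - S.y0 := Int.natAbs_of_nonneg (by omega)
          omega
        · have : ((S.y1 - S.y0).natAbs : ℤ) = -(S.y1 - S.y0) := by
            rw [← Int.natAbs_neg]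
            exact Int.natAbs_of_nonneg (by omega)
          omega
      rw [e0, e1, Sym2.eq_swap]
      obtain ⟨p, hp⟩ := leg_aux S.k (S.c + s) S.y1 S rfl S.g1
      exact ⟨p, Or.inl hp⟩

theorem end_aux (S : Strip) (y : ℤ) (g : Bool) :
    ∃ p, s(ptk S.k (S.c + 0) y (S.far g), ptk S.k (S.c + 1) y (S.far g)) = hzE p := by
  unfold Strip.far
  cases g
  · refine ⟨ptk S.k (S.c + 0) y (S.k - 1), ?_⟩
    have e : S.c + 0 + 1 = S.c + 1 := by ring
    unfold hzE
    rw [if_neg (by decide), nx_ptk_dn, e]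
  · refine ⟨ptk S.k (S.c + 1) y (S.k + 1), ?_⟩
    have e : S.c + 1 - 1 = S.c + 0 := by ring
    unfold hzE
    rw [if_pos rfl, nx_ptk_up, e, Sym2.eq_swap]

/-- The edges of the boundary of a strip are Legendrian. -/
theorem bS_leg (S : Strip) {ε : Sym2 Cube} (h : ε ∈ S.bS) : ∃ p, ε = upE p ∨ ε = hzE p := by
  have hn := two_le_n S
  unfold Strip.bS at h
  rw [Finset.mem_union, Finset.mem_union, Finset.mem_image, Finset.mem_image,
    Finset.mem_insert, Finset.mem_singleton] at h
  rcases h with (⟨i, hi, rfl⟩ | ⟨i, hi, rfl⟩) | rfl | rfl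
  · exact side_leg S 0 (Finset.mem_range.1 hi)
  · exact side_leg S 1 (Finset.mem_range.1 hi)
  · have e0 : ∀ s, S.vx s 0 = ptk S.k (S.c + s) S.y0 (S.far S.g0) := by
      intro s; unfold Strip.vx; rw [if_pos rfl]
    rw [e0, e0]
    obtain ⟨p, hp⟩ := end_aux S S.y0 S.g0
    exact ⟨p, Or.inr hp⟩
  · have e0 : ∀ s, S.vx s S.n = ptk S.k (S.c + s) S.y1 (S.far S.g1) := by
      intro s; unfold Strip.vx; rw [if_neg (by omega), if_neg (by omega)]
    rw [e0, e0]
    obtain ⟨p, hp⟩ := end_aux S S.y1 S.g1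
    exact ⟨p, Or.inr hp⟩

end Pool.Agent.Helper14.SURF
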